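import Mathlib
import Pool.Agent.H979.GW.StmA

/-!
# GW M1: first moments of sums over the children
-/

set_option autoImplicit false
set_option linter.unusedSectionVars false
set_option linter.unusedVariables false

open MeasureTheory ProbabilityTheory Filter Topology Set
open scoped ENNReal NNReal

namespace Pool.Agent.H548

open Pool.Agent.H979.GW

namespace GWM1

variable {Q : Type} [Fintype Q] [DecidableEq Q]

/-- sums over children -/
theorem sum_chd' {M : Type*} [AddCommMonoid M] (x : Q → ℕ) (f : Q × ℕ → M) :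
    ∑ c ∈ chd x, f c = ∑ b, ∑ i ∈ Finset.range (x b), f (b, i) := by
  unfold chd
  rw [Finset.sum_biUnion]
  · refine Finset.sum_congr rfl fun b _ => ?_
    rw [Finset.sum_image]
    intro i _ j _ h
    exact (Prod.mk.inj h).2
  · intro b _ b' _ hb
    simp only [Function.onFun]
    rw [Finset.disjoint_left]
    intro x hx hy
    simp only [Finset.mem_image] at hx hy
    obtain ⟨i, _, rfl⟩ := hx
    obtain ⟨j, _, h⟩ := hy
    exact hb (Prod.mk.inj h).1.symm

theorem sum_chd_tsum (x : Q → ℕ) (f : Q × ℕ → ℝ≥0∞) :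
    ∑ c ∈ chd x, f c = ∑ b, ∑' i : ℕ, (if i < x b then f (b, i) else 0) := by
  rw [sum_chd']
  refine Finset.sum_congr rfl fun b _ => ?_
  rw [tsum_eq_sum (s := Finset.range (x b))]
  · refine Finset.sum_congr rfl fun i hi => ?_
    rw [if_pos (Finset.mem_range.1 hi)]
  · intro i hi
    rw [if_neg (fun h => hi (Finset.mem_range.2 h))]

theorem meas_lt (b : Q) (i : ℕ) : MeasurableSet {x : Q → ℕ | i < x b} :=
  measurableSet_lt measurable_const (measurable_pi_apply b)

theorem meas_ind (b : Q) (i : ℕ) :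
    Measurable (fun x : Q → ℕ => if i < x b then (1 : ℝ≥0∞) else 0) :=
  Measurable.ite (meas_lt b i) measurable_const measurable_const

theorem ind_eq (b : Q) (i : ℕ) : (fun x : Q → ℕ => if i < x b then (1 : ℝ≥0∞) else 0) =
    indicator {x : Q → ℕ | i < x b} (fun _ => 1) := by
  funext x
  rw [Set.indicator_apply]
  by_cases h : i < x b
  · rw [if_pos h, if_pos (show x ∈ {x : Q → ℕ | i < x b} from h)]
  · rw [if_neg h, if_neg (show ¬ x ∈ {x : Q → ℕ | i < x b} from h)]

theorem meas_sum0 {M : Type} [AddCommMonoid M] [MeasurableSpace M] [MeasurableAdd₂ M] :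
    Measurable fun p : (Q → ℕ) × (Q × ℕ → M) => ∑ c ∈ chd p.1, p.2 c := by
  refine measurable_from_prod_countable_right fun x => ?_
  have h2 : ∀ c : Q × ℕ, Measurable fun y : Q × ℕ → M => y c := fun c => measurable_pi_apply c
  exact Finset.measurable_fun_sum (chd x) fun c _ => h2 c

theorem meas_sum {M : Type} [AddCommMonoid M] [MeasurableSpace M] [MeasurableAdd₂ M] {Ω : Type}
    [MeasurableSpace Ω] {X : Ω → Q → ℕ} (hX : Measurable X) {g : Q × ℕ → Ω → M}
    (hg : ∀ c, Measurable (g c)) : Measurable fun ω => ∑ c ∈ chd (X ω), g c ω := by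
  have h3 : Measurable fun ω => (X ω, fun c => g c ω) := by
    refine hX.prodMk ?_
    rw [measurable_pi_iff]
    exact hg
  have h4 := (meas_sum0 (Q := Q) (M := M)).comp h3
  exact h4

section main

variable (q : Q → Measure (Q → ℕ)) [∀ a, IsProbabilityMeasure (q a)]

/-- one term of the decomposition -/
theorem term (h1 : S_SH q) (h2 : S_DEC q) {f : Env Q → ℝ≥0∞} (hf : Measurable f) (a b : Q)
    (i : ℕ) : ∫⁻ ω, (if i < ω [] b then f (sh [(b, i)] ω) else 0) ∂(law q a) =
      q a {x | i < x b} * ∫⁻ ω, f ω ∂(law q b) := by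
  have hφ : Measurable (fun ω : Env Q => (ω [], fun c : Q × ℕ => sh [c] ω)) :=
    (measurable_pi_apply _).prodMk (measurable_pi_iff.2 fun c => (h1 a [c]).1)
  have hg2 : Measurable (fun y : Q × ℕ → Env Q => f (y (b, i))) :=
    hf.comp (measurable_pi_apply _)
  have hg : Measurable (fun p : (Q → ℕ) × (Q × ℕ → Env Q) =>
      (if i < p.1 b then (1 : ℝ≥0∞) else 0) * f (p.2 (b, i))) :=
    ((meas_ind b i).comp measurable_fst).mul (hg2.comp measurable_snd)
  have e1 : ∫⁻ ω, (if i < ω [] b then f (sh [(b, i)] ω) else 0) ∂(law q a) =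
      ∫⁻ p : (Q → ℕ) × (Q × ℕ → Env Q), (if i < p.1 b then (1 : ℝ≥0∞) else 0) * f (p.2 (b, i))
        ∂((law q a).map (fun ω => (ω [], fun c : Q × ℕ => sh [c] ω))) := by
    rw [lintegral_map hg hφ]
    refine lintegral_congr fun ω => ?_
    by_cases h : i < ω [] b
    · rw [if_pos h, if_pos h, one_mul]
    · rw [if_neg h, if_neg h, zero_mul]
  rw [e1, h2 a, lintegral_prod_mul (meas_ind b i).aemeasurable hg2.aemeasurable]
  congr 1
  · rw [ind_eq, lintegral_indicator_const (meas_lt b i), one_mul]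
  · have h4 := (measurePreserving_eval_infinitePi (fun c : Q × ℕ => law q c.1) (b, i))
    have h5 := h4.lintegral_comp hf
    exact h5

/-- the mean number of children as a sum of probabilities -/
theorem mean (hm : ∀ a b, Integrable (fun x : Q → ℕ => (x b : ℝ)) (q a)) (a b : Q) :
    ∑' i : ℕ, q a {x | i < x b} = ENNReal.ofReal (mA q a b) := by
  have h1 : ENNReal.ofReal (mA q a b) = ∫⁻ x : Q → ℕ, ENNReal.ofReal (x b : ℝ) ∂(q a) := by
    unfold mA
    rw [ofReal_integral_eq_lintegral_ofReal (hm a b)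
      (Eventually.of_forall fun x => Nat.cast_nonneg _)]
  have h2 : ∀ x : Q → ℕ, ENNReal.ofReal (x b : ℝ) =
      ∑' i : ℕ, (if i < x b then (1 : ℝ≥0∞) else 0) := by
    intro x
    rw [ENNReal.ofReal_natCast, tsum_eq_sum (s := Finset.range (x b))]
    · rw [Finset.sum_congr rfl fun i hi => if_pos (Finset.mem_range.1 hi)]
      rw [Finset.sum_const, Finset.card_range, nsmul_eq_mul, mul_one]
    · intro i hi
      rw [if_neg (fun h => hi (Finset.mem_range.2 h))]
  rw [h1]
  simp_rw [h2]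
  rw [lintegral_tsum fun i => (meas_ind b i).aemeasurable]
  refine tsum_congr fun i => ?_
  rw [ind_eq, lintegral_indicator_const (meas_lt b i), one_mul]

/-- the first part -/
theorem part1 (hm : ∀ a b, Integrable (fun x : Q → ℕ => (x b : ℝ)) (q a)) (h1 : S_SH q)
    (h2 : S_DEC q) (f : Q → Env Q → ℝ≥0∞) (hf : ∀ b, Measurable (f b)) (a : Q) :
    ∫⁻ ω, ∑ c ∈ chd (ω []), f c.1 (sh [c] ω) ∂(law q a) =
      ∑ b, ENNReal.ofReal (mA q a b) * ∫⁻ ω, f b ω ∂(law q b) := by
  have hmt : ∀ (b : Q) (i : ℕ),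
      Measurable (fun ω : Env Q => if i < ω [] b then f b (sh [(b, i)] ω) else 0) := by
    intro b i
    exact Measurable.ite ((meas_lt b i).preimage (measurable_pi_apply ([] : Vx Q)))
      ((hf b).comp (h1 a [(b, i)]).1) measurable_const
  simp_rw [fun ω : Env Q => sum_chd_tsum (ω []) fun c => f c.1 (sh [c] ω)]
  rw [lintegral_finsetSum _ fun b _ => Measurable.tsum (hmt b)]
  refine Finset.sum_congr rfl fun b _ => ?_
  rw [lintegral_tsum fun i => (hmt b i).aemeasurable, ← mean q hm a b, ← ENNReal.tsum_mul_right]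
  exact tsum_congr fun i => term q h1 h2 (hf b) a b i

/-- the first part for real functions, measurable and nonnegative -/
theorem part2 (hm : ∀ a b, Integrable (fun x : Q → ℕ => (x b : ℝ)) (q a)) (h1 : S_SH q)
    (h2 : S_DEC q) (f : Q → Env Q → ℝ) (hf : ∀ b, Integrable (f b) (law q b))
    (hfm : ∀ b, Measurable (f b)) (a : Q) : Integrable (TT f a) (law q a) ∧
      ((∀ b ω, 0 ≤ f b ω) → ∫ ω, TT f a ω ∂(law q a) = ∑ b, mA q a b * ∫ ω, f b ω ∂(law q b)) := by
  have hmeas : Measurable (TT f a) := by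
    unfold TT
    exact meas_sum (measurable_pi_apply ([] : Vx Q)) fun c => (hfm c.1).comp (h1 a [c]).1
  constructor
  · refine ⟨hmeas.aestronglyMeasurable, ?_⟩
    have h3 := part1 q hm h1 h2 (fun b ω => ‖f b ω‖ₑ) (fun b => (hfm b).enorm) a
    refine lt_of_le_of_lt (b := ∫⁻ ω, ∑ c ∈ chd (ω []), ‖f c.1 (sh [c] ω)‖ₑ ∂(law q a)) ?_ ?_
    · refine lintegral_mono fun ω => ?_
      exact enorm_sum_le _ _
    · rw [h3]
      refine ENNReal.sum_lt_top.2 fun b _ => ENNReal.mul_lt_top ENNReal.ofReal_lt_top (hf b).2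
  · intro h0
    have hTT0 : ∀ ω, 0 ≤ TT f a ω := fun ω => Finset.sum_nonneg fun c _ => h0 _ _
    have hA0 : ∀ b, 0 ≤ mA q a b := fun b => integral_nonneg fun x => Nat.cast_nonneg _
    have h3 := part1 q hm h1 h2 (fun b ω => ENNReal.ofReal (f b ω))
      (fun b => (hfm b).ennreal_ofReal) a
    rw [integral_eq_lintegral_of_nonneg_ae (Eventually.of_forall hTT0)
      hmeas.aestronglyMeasurable]
    have h4 : ∫⁻ ω, ENNReal.ofReal (TT f a ω) ∂(law q a) =
        ∫⁻ ω, ∑ c ∈ chd (ω []), ENNReal.ofReal (f c.1 (sh [c] ω)) ∂(law q a) := by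
      refine lintegral_congr fun ω => ?_
      unfold TT
      rw [ENNReal.ofReal_sum_of_nonneg fun c _ => h0 _ _]
    rw [h4, h3, ENNReal.toReal_sum]
    · refine Finset.sum_congr rfl fun b _ => ?_
      rw [ENNReal.toReal_mul, ENNReal.toReal_ofReal (hA0 b),
        integral_eq_lintegral_of_nonneg_ae (Eventually.of_forall (h0 b))
          (hfm b).aestronglyMeasurable]
    · intro b _
      refine ENNReal.mul_ne_top ENNReal.ofReal_ne_top ?_
      have h5 := (hf b).lintegral_lt_top
      exact h5.ne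

end main

end GWM1

open GWM1 in
theorem gw_m1 {Q : Type} [Fintype Q] [DecidableEq Q] (q : Q → Measure (Q → ℕ))
    [∀ a, IsProbabilityMeasure (q a)] (hm : ∀ a b, Integrable (fun x : Q → ℕ => (x b : ℝ)) (q a))
    (h1 : S_SH q) (h2 : S_DEC q) : S_M1 q := by
  refine ⟨fun f hf a => part1 q hm h1 h2 f hf a, fun f hf a => ?_⟩
  -- measurable representatives
  have hg : ∀ b, ∃ g : Env Q → ℝ, Measurable g ∧ f b =ᵐ[law q b] g := fun b =>
    ⟨_, (hf b).1.stronglyMeasurable_mk.measurable, (hf b).1.ae_eq_mk⟩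
  choose g hgm hfg using hg
  have hgi : ∀ b, Integrable (g b) (law q b) := fun b => (hf b).congr (hfg b)
  have hTT : TT f a =ᵐ[law q a] TT g a := by
    have h3 : ∀ c : Q × ℕ, ∀ᵐ ω ∂(law q a), f c.1 (sh [c] ω) = g c.1 (sh [c] ω) := by
      intro c
      have h4 : ∀ᵐ ω ∂((law q a).map (sh [c])), f c.1 ω = g c.1 ω := by
        rw [(h1 a [c]).2]
        exact hfg c.1
      exact ae_of_ae_map (h1 a [c]).1.aemeasurable h4
    filter_upwards [ae_all_iff.2 h3] with ω hω
    unfold TT
    exact Finset.sum_congr rfl fun c _ => hω c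
  have hint : ∀ b, ∫ ω, f b ω ∂(law q b) = ∫ ω, g b ω ∂(law q b) := fun b =>
    integral_congr_ae (hfg b)
  rw [integral_congr_ae hTT]
  simp_rw [hint]
  obtain ⟨h5, -⟩ := part2 q hm h1 h2 g hgi hgm a
  refine ⟨h5.congr hTT.symm, ?_⟩
  obtain ⟨h6, h7⟩ := part2 q hm h1 h2 (fun b ω => max (g b ω) 0) (fun b => (hgi b).pos_part)
    (fun b => (hgm b).max measurable_const) a
  obtain ⟨h8, h9⟩ := part2 q hm h1 h2 (fun b ω => max (-(g b ω)) 0) (fun b => (hgi b).neg_part)
    (fun b => (hgm b).neg.max measurable_const) a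
  have h10 : ∀ b ω, g b ω = max (g b ω) 0 - max (-(g b ω)) 0 := by
    intro b ω
    rcases le_total 0 (g b ω) with h | h
    · rw [max_eq_left h, max_eq_right (by linarith), sub_zero]
    · rw [max_eq_right h, max_eq_left (by linarith)]
      ring
  have h11 : ∀ ω, TT g a ω = TT (fun b ω => max (g b ω) 0) a ω -
      TT (fun b ω => max (-(g b ω)) 0) a ω := by
    intro ω
    unfold TT
    rw [← Finset.sum_sub_distrib]
    exact Finset.sum_congr rfl fun c _ => h10 _ _
  rw [integral_congr_ae (Eventually.of_forall h11), integral_sub h6 h8,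
    h7 fun b ω => le_max_right _ _, h9 fun b ω => le_max_right _ _, ← Finset.sum_sub_distrib]
  refine Finset.sum_congr rfl fun b _ => ?_
  rw [← mul_sub, ← integral_sub (hgi b).pos_part (hgi b).neg_part]
  congr 1
  exact integral_congr_ae (Eventually.of_forall fun ω => (h10 b ω).symm)

end Pool.Agent.H548
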