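import Pool.Agent.H812.SF.Stm2

/-!
SF-BLK: five steps of a recurrence near the golden ratio (for helper812).
-/

set_option autoImplicit false

namespace Pool.Agent.H548.SfBLK

open Pool.Agent.N229.SC Pool.Agent.H812.SF

theorem gold (φ : ℝ) (h : φ ^ 2 = φ + 1) (h0 : 0 < φ) : 1.618 ≤ φ ∧ φ ≤ 1.6181 := by
  constructor
  · by_contra hc
    push Not at hc
    nlinarith
  · by_contra hc
    push Not at hc
    nlinarith

theorem stepu (φ d δ u1 x u0 A X B S : ℝ) (hφ0 : 0 ≤ φ) (hφ : φ ≤ 1.6181) (hd0 : 0 ≤ d)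
    (hd : d ≤ 2 * δ) (hS : 0 ≤ S) (hA : |u1| ≤ A * (δ * S)) (hX : |x| ≤ X * S)
    (hB : |u0| ≤ B * (δ * S)) :
    |φ * u1 + d * x - u0| ≤ (1.6181 * A + 2 * X + B) * (δ * S) := by
  have h1 : |φ * u1 + d * x - u0| ≤ φ * |u1| + d * |x| + |u0| := by
    refine (abs_sub _ _).trans ?_
    have h2 := abs_add_le (φ * u1) (d * x)
    rw [abs_mul, abs_mul, abs_of_nonneg hφ0, abs_of_nonneg hd0] at h2
    linarith
  have h2 : φ * |u1| ≤ 1.6181 * (A * (δ * S)) :=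
    mul_le_mul hφ hA (abs_nonneg _) (by norm_num)
  have h3 : d * |x| ≤ 2 * δ * (X * S) :=
    mul_le_mul hd hX (abs_nonneg _) (by linarith)
  calc |φ * u1 + d * x - u0| ≤ 1.6181 * (A * (δ * S)) + 2 * δ * (X * S) + B * (δ * S) := by
        linarith
    _ = _ := by ring

theorem stepx (e u C E δ S : ℝ) (hδ : δ ≤ 1 / 10 ^ 4) (hS : 0 ≤ S) (hC : 0 ≤ C)
    (he : |e| ≤ E * S) (hu : |u| ≤ C * (δ * S)) : |e + u| ≤ (E + C / 10 ^ 4) * S := by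
  have h1 := abs_add_le e u
  have h2 : C * (δ * S) ≤ C * (1 / 10 ^ 4 * S) :=
    mul_le_mul_of_nonneg_left (mul_le_mul_of_nonneg_right hδ hS) hC
  calc |e + u| ≤ E * S + C * (1 / 10 ^ 4 * S) := by linarith
    _ = _ := by ring

theorem term (d e u δ E C S : ℝ) (hd1 : δ ≤ d) (hd : d ≤ 2 * δ) (hδ : 0 < δ) (hE : 0 ≤ E)
    (hS : 0 ≤ S) (he : |e| ≤ E * S) (hu : |u| ≤ C * (δ * S)) :
    δ * e ^ 2 - 2 * δ * (E * C * (δ * S ^ 2)) ≤ d * (e * (e + u)) := by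
  have h1 : |e * u| ≤ E * S * (C * (δ * S)) := by
    rw [abs_mul]
    exact mul_le_mul he hu (abs_nonneg _) (by positivity)
  have h2 : -(E * S * (C * (δ * S))) ≤ e * u := (abs_le.1 h1).1
  have h3 : d * -(E * S * (C * (δ * S))) ≤ d * (e * u) :=
    mul_le_mul_of_nonneg_left h2 (by linarith)
  have h4 : 0 ≤ E * S * (C * (δ * S)) := (abs_nonneg _).trans h1
  have h5 : d * (E * S * (C * (δ * S))) ≤ 2 * δ * (E * S * (C * (δ * S))) :=
    mul_le_mul_of_nonneg_right hd h4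
  have h6 : δ * e ^ 2 ≤ d * e ^ 2 := mul_le_mul_of_nonneg_right hd1 (sq_nonneg e)
  have h7 : 2 * δ * (E * C * (δ * S ^ 2)) = 2 * δ * (E * S * (C * (δ * S))) := by ring
  have h8 : d * (e * (e + u)) = d * e ^ 2 + d * (e * u) := by ring
  rw [h7, h8]
  linarith

theorem sq_abs_le (a b : ℝ) : (|a| + |b|) ^ 2 ≤ 2 * (a ^ 2 + b ^ 2) := by
  have h1 : |a| ^ 2 = a ^ 2 := sq_abs a
  have h2 : |b| ^ 2 = b ^ 2 := sq_abs b
  rw [← h1, ← h2]
  nlinarith [sq_nonneg (|a| - |b|)]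

theorem proof_BLK : S_BLK := by
  intro φ δ c x hφ2 hφ0 hδ hδ1 hc hx
  obtain ⟨g1, g2⟩ := gold φ hφ2 hφ0
  have c0 := hc 0 (by norm_num)
  have c1 := hc 1 (by norm_num)
  have c2 := hc 2 (by norm_num)
  have c3 := hc 3 (by norm_num)
  have c4 := hc 4 (by norm_num)
  have x2 : x 2 = c 0 * x 1 - x 0 := hx 0 (by norm_num)
  have x3 : x 3 = c 1 * x 2 - x 1 := hx 1 (by norm_num)
  have x4 : x 4 = c 2 * x 3 - x 2 := hx 2 (by norm_num)
  have x5 : x 5 = c 3 * x 4 - x 3 := hx 3 (by norm_num)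
  have x6 : x 6 = c 4 * x 5 - x 4 := hx 4 (by norm_num)
  clear hc hx
  obtain ⟨a, ha⟩ : ∃ a, a = x 0 := ⟨_, rfl⟩
  obtain ⟨b, hb⟩ : ∃ b, b = x 1 := ⟨_, rfl⟩
  obtain ⟨d0, hd0⟩ : ∃ d, d = c 0 - φ := ⟨_, rfl⟩
  obtain ⟨d1, hd1⟩ : ∃ d, d = c 1 - φ := ⟨_, rfl⟩
  obtain ⟨d2, hd2⟩ : ∃ d, d = c 2 - φ := ⟨_, rfl⟩
  obtain ⟨d3, hd3⟩ : ∃ d, d = c 3 - φ := ⟨_, rfl⟩
  obtain ⟨d4, hd4⟩ : ∃ d, d = c 4 - φ := ⟨_, rfl⟩
  have e0 : c 0 = φ + d0 := by linarith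
  have e1 : c 1 = φ + d1 := by linarith
  have e2 : c 2 = φ + d2 := by linarith
  have e3 : c 3 = φ + d3 := by linarith
  have e4 : c 4 = φ + d4 := by linarith
  rw [e0] at c0 x2
  rw [e1] at c1 x3
  rw [e2] at c2 x4
  rw [e3] at c3 x5
  rw [e4] at c4 x6
  rw [← ha, ← hb] at x2 ⊢
  rw [← hb] at x3
  have q0 : δ ≤ d0 ∧ d0 ≤ 2 * δ := ⟨by linarith [c0.1], by linarith [c0.2]⟩
  have q1 : δ ≤ d1 ∧ d1 ≤ 2 * δ := ⟨by linarith [c1.1], by linarith [c1.2]⟩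
  have q2 : δ ≤ d2 ∧ d2 ≤ 2 * δ := ⟨by linarith [c2.1], by linarith [c2.2]⟩
  have q3 : δ ≤ d3 ∧ d3 ≤ 2 * δ := ⟨by linarith [c3.1], by linarith [c3.2]⟩
  have q4 : δ ≤ d4 ∧ d4 ≤ 2 * δ := ⟨by linarith [c4.1], by linarith [c4.2]⟩
  obtain ⟨S, hS⟩ : ∃ S, S = |a| + |b| := ⟨_, rfl⟩
  have hS0 : 0 ≤ S := by rw [hS]; positivity
  have haS : |a| ≤ 1 * S := by rw [hS]; linarith [abs_nonneg b]
  have hbS : |b| ≤ 1 * S := by rw [hS]; linarith [abs_nonneg a]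
  rw [← hS]
  -- the unperturbed sequence
  have hlin : ∀ p q : ℝ, |p| ≤ 1.6181 → |q| ≤ 1.6181 → |p * a + q * b| ≤ 1.6181 * S := by
    intro p q hp hq
    refine (abs_add_le _ _).trans ?_
    rw [abs_mul, abs_mul, hS]
    have h1 : |p| * |a| ≤ 1.6181 * |a| := mul_le_mul_of_nonneg_right hp (abs_nonneg _)
    have h2 : |q| * |b| ≤ 1.6181 * |b| := mul_le_mul_of_nonneg_right hq (abs_nonneg _)
    linarith
  have hφa : |φ| ≤ 1.6181 := by rw [abs_of_pos hφ0]; exact g2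
  have hφn : |-φ| ≤ 1.6181 := by rw [abs_neg]; exact hφa
  have h1a : |(1 : ℝ)| ≤ 1.6181 := by rw [abs_one]; norm_num
  have h1n : |(-1 : ℝ)| ≤ 1.6181 := by rw [abs_neg, abs_one]; norm_num
  have E2 : |φ * b - a| ≤ 1.6181 * S := by
    have := hlin (-1) φ h1n hφa
    have h : -1 * a + φ * b = φ * b - a := by ring
    rwa [h] at this
  have E3 : |φ * b - φ * a| ≤ 1.6181 * S := by
    have := hlin (-φ) φ hφn hφa
    have h : -φ * a + φ * b = φ * b - φ * a := by ring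
    rwa [h] at this
  have E4 : |b - φ * a| ≤ 1.6181 * S := by
    have := hlin (-φ) 1 hφn h1a
    have h : -φ * a + 1 * b = b - φ * a := by ring
    rwa [h] at this
  have E5 : |-a| ≤ 1 * S := by rw [abs_neg]; exact haS
  have E6 : |-b| ≤ 1 * S := by rw [abs_neg]; exact hbS
  -- the differences
  obtain ⟨u2, hu2⟩ : ∃ u, u = x 2 - (φ * b - a) := ⟨_, rfl⟩
  obtain ⟨u3, hu3⟩ : ∃ u, u = x 3 - (φ * b - φ * a) := ⟨_, rfl⟩
  obtain ⟨u4, hu4⟩ : ∃ u, u = x 4 - (b - φ * a) := ⟨_, rfl⟩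
  obtain ⟨u5, hu5⟩ : ∃ u, u = x 5 - (-a) := ⟨_, rfl⟩
  obtain ⟨u6, hu6⟩ : ∃ u, u = x 6 - (-b) := ⟨_, rfl⟩
  have r2 : u2 = φ * 0 + d0 * b - 0 := by rw [hu2, x2]; ring
  have r3 : u3 = φ * u2 + d1 * x 2 - 0 := by
    rw [hu3, x3, hu2]
    linear_combination b * hφ2
  have r4 : u4 = φ * u3 + d2 * x 3 - u2 := by
    rw [hu4, x4, hu3, hu2]
    linear_combination (b - a) * hφ2
  have r5 : u5 = φ * u4 + d3 * x 4 - u3 := by
    rw [hu5, x5, hu4, hu3]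
    linear_combination (-a) * hφ2
  have r6 : u6 = φ * u5 + d4 * x 5 - u4 := by
    rw [hu6, x6, hu5, hu4]
    ring
  have z0 : |(0 : ℝ)| ≤ 0 * (δ * S) := by simp
  have U2 := stepu φ d0 δ 0 b 0 0 1 0 S hφ0.le g2 (by linarith [q0.1]) q0.2 hS0 z0 hbS z0
  rw [← r2] at U2
  have U2' : |u2| ≤ 2 * (δ * S) := U2.trans (le_of_eq (by ring))
  have X2 : |x 2| ≤ (1.6181 + 2 / 10 ^ 4) * S := by
    have h := stepx (φ * b - a) u2 2 1.6181 δ S hδ1 hS0 (by norm_num) E2 U2'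
    have h' : φ * b - a + u2 = x 2 := by rw [hu2]; ring
    rwa [h'] at h
  have U3 := stepu φ d1 δ u2 (x 2) 0 2 (1.6181 + 2 / 10 ^ 4) 0 S hφ0.le g2 (by linarith [q1.1])
    q1.2 hS0 U2' X2 z0
  rw [← r3] at U3
  have hδS : 0 ≤ δ * S := by positivity
  have U3' : |u3| ≤ 6.5 * (δ * S) :=
    U3.trans (mul_le_mul_of_nonneg_right (by norm_num) hδS)
  have X3 : |x 3| ≤ (1.6181 + 6.5 / 10 ^ 4) * S := by
    have h := stepx (φ * b - φ * a) u3 6.5 1.6181 δ S hδ1 hS0 (by norm_num) E3 U3'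
    have h' : φ * b - φ * a + u3 = x 3 := by rw [hu3]; ring
    rwa [h'] at h
  have U4 := stepu φ d2 δ u3 (x 3) u2 6.5 (1.6181 + 6.5 / 10 ^ 4) 2 S hφ0.le g2
    (by linarith [q2.1]) q2.2 hS0 U3' X3 U2'
  rw [← r4] at U4
  have U4' : |u4| ≤ 15.8 * (δ * S) :=
    U4.trans (mul_le_mul_of_nonneg_right (by norm_num) hδS)
  have X4 : |x 4| ≤ (1.6181 + 15.8 / 10 ^ 4) * S := by
    have h := stepx (b - φ * a) u4 15.8 1.6181 δ S hδ1 hS0 (by norm_num) E4 U4'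
    have h' : b - φ * a + u4 = x 4 := by rw [hu4]; ring
    rwa [h'] at h
  have U5 := stepu φ d3 δ u4 (x 4) u3 15.8 (1.6181 + 15.8 / 10 ^ 4) 6.5 S hφ0.le g2
    (by linarith [q3.1]) q3.2 hS0 U4' X4 U3'
  rw [← r5] at U5
  have U5' : |u5| ≤ 36 * (δ * S) :=
    U5.trans (mul_le_mul_of_nonneg_right (by norm_num) hδS)
  have X5 : |x 5| ≤ (1 + 36 / 10 ^ 4) * S := by
    have h := stepx (-a) u5 36 1 δ S hδ1 hS0 (by norm_num) E5 U5'
    have h' : -a + u5 = x 5 := by rw [hu5]; ring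
    rwa [h'] at h
  have U6 := stepu φ d4 δ u5 (x 5) u4 36 (1 + 36 / 10 ^ 4) 15.8 S hφ0.le g2
    (by linarith [q4.1]) q4.2 hS0 U5' X5 U4'
  rw [← r6] at U6
  have U6' : |u6| ≤ 77 * (δ * S) :=
    U6.trans (mul_le_mul_of_nonneg_right (by norm_num) hδS)
  have hSsq : S ^ 2 ≤ 2 * (a ^ 2 + b ^ 2) := by
    rw [hS]
    exact sq_abs_le a b
  refine ⟨?_, ?_, ?_⟩
  · have h : -x 5 - a = -u5 := by rw [hu5]; ring
    rw [h, abs_neg, mul_assoc]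
    exact U5'.trans (mul_le_mul_of_nonneg_right (by norm_num) hδS)
  · have h : -x 6 - b = -u6 := by rw [hu6]; ring
    rw [h, abs_neg, mul_assoc]
    exact U6'.trans (mul_le_mul_of_nonneg_right (by norm_num) hδS)
  · -- the Wronskian
    have t0 : δ * b ^ 2 ≤ d0 * (b * b) := by
      have := mul_le_mul_of_nonneg_right q0.1 (sq_nonneg b)
      have h : b * b = b ^ 2 := by ring
      rw [h]
      exact this
    have t1 := term d1 (φ * b - a) u2 δ 1.6181 2 S q1.1 q1.2 hδ (by norm_num) hS0 E2 U2'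
    have t2 := term d2 (φ * b - φ * a) u3 δ 1.6181 6.5 S q2.1 q2.2 hδ (by norm_num) hS0 E3 U3'
    have t3 := term d3 (b - φ * a) u4 δ 1.6181 15.8 S q3.1 q3.2 hδ (by norm_num) hS0 E4 U4'
    have t4 := term d4 (-a) u5 δ 1 36 S q4.1 q4.2 hδ (by norm_num) hS0 E5 U5'
    have hW : a * -x 6 - b * -x 5 = d0 * (b * b) + d1 * ((φ * b - a) * (φ * b - a + u2)) +
        d2 * ((φ * b - φ * a) * (φ * b - φ * a + u3)) + d3 * ((b - φ * a) * (b - φ * a + u4)) +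
        d4 * ((-a) * (-a + u5)) := by
      have y2 : φ * b - a + u2 = x 2 := by rw [hu2]; ring
      have y3 : φ * b - φ * a + u3 = x 3 := by rw [hu3]; ring
      have y4 : b - φ * a + u4 = x 4 := by rw [hu4]; ring
      have y5 : -a + u5 = x 5 := by rw [hu5]; ring
      rw [y2, y3, y4, y5]
      -- telescoping
      have w1 : b * x 2 - (φ * b - a) * b = d0 * (b * b) := by rw [x2]; ring
      have w2 : (φ * b - a) * x 3 - (φ * b - φ * a) * x 2 =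
          b * x 2 - (φ * b - a) * b + d1 * ((φ * b - a) * x 2) := by
        rw [x3]
        linear_combination (b * x 2) * hφ2
      have w3 : (φ * b - φ * a) * x 4 - (b - φ * a) * x 3 =
          (φ * b - a) * x 3 - (φ * b - φ * a) * x 2 + d2 * ((φ * b - φ * a) * x 3) := by
        rw [x4]
        linear_combination ((b - a) * x 3) * hφ2
      have w4 : (b - φ * a) * x 5 - (-a) * x 4 =
          (φ * b - φ * a) * x 4 - (b - φ * a) * x 3 + d3 * ((b - φ * a) * x 4) := by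
        rw [x5]
        linear_combination (-(a * x 4)) * hφ2
      have w5 : (-a) * x 6 - (-b) * x 5 =
          (b - φ * a) * x 5 - (-a) * x 4 + d4 * ((-a) * x 5) := by
        rw [x6]
        ring
      linarith
    rw [hW]
    have hsum : b ^ 2 + (φ * b - a) ^ 2 + (φ * b - φ * a) ^ 2 + (b - φ * a) ^ 2 + (-a) ^ 2 =
        (4 + 2 * φ) * (a ^ 2 + b ^ 2) - (6 * φ + 2) * (a * b) := by
      linear_combination (2 * a ^ 2 + 2 * b ^ 2 - 2 * a * b) * hφ2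
    have hlow : 1.38 * (a ^ 2 + b ^ 2) ≤
        (4 + 2 * φ) * (a ^ 2 + b ^ 2) - (6 * φ + 2) * (a * b) := by
      have h1 : 0 ≤ (3 * φ + 1) * (a - b) ^ 2 := by positivity
      have h2 : (1.38 : ℝ) ≤ 3 - φ := by linarith
      have h3 : 1.38 * (a ^ 2 + b ^ 2) ≤ (3 - φ) * (a ^ 2 + b ^ 2) :=
        mul_le_mul_of_nonneg_right h2 (by positivity)
      have h4 : (4 + 2 * φ) * (a ^ 2 + b ^ 2) - (6 * φ + 2) * (a * b) =
          (3 - φ) * (a ^ 2 + b ^ 2) + (3 * φ + 1) * (a - b) ^ 2 := by ring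
      rw [h4]
      linarith
    have herr : 2 * δ * (1.6181 * 2 * (δ * S ^ 2)) + 2 * δ * (1.6181 * 6.5 * (δ * S ^ 2)) +
        2 * δ * (1.6181 * 15.8 * (δ * S ^ 2)) + 2 * δ * (1 * 36 * (δ * S ^ 2)) ≤
        0.04 * (δ * (a ^ 2 + b ^ 2)) := by
      have h1 : 2 * δ * (1.6181 * 2 * (δ * S ^ 2)) + 2 * δ * (1.6181 * 6.5 * (δ * S ^ 2)) +
          2 * δ * (1.6181 * 15.8 * (δ * S ^ 2)) + 2 * δ * (1 * 36 * (δ * S ^ 2)) =
          (2 * (1.6181 * 24.3 + 36)) * (δ * (δ * S ^ 2)) := by ring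
      rw [h1]
      have h2 : δ * S ^ 2 ≤ 1 / 10 ^ 4 * (2 * (a ^ 2 + b ^ 2)) :=
        mul_le_mul hδ1 hSsq (by positivity) (by norm_num)
      have h3 : δ * (δ * S ^ 2) ≤ δ * (1 / 10 ^ 4 * (2 * (a ^ 2 + b ^ 2))) :=
        mul_le_mul_of_nonneg_left h2 hδ.le
      have h4 : (2 * (1.6181 * 24.3 + 36)) * (δ * (δ * S ^ 2)) ≤
          151 * (δ * (1 / 10 ^ 4 * (2 * (a ^ 2 + b ^ 2)))) :=
        mul_le_mul (by norm_num) h3 (by positivity) (by norm_num)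
      have h5 : 0 ≤ δ * (a ^ 2 + b ^ 2) := by positivity
      linarith
    have hmul : δ * (1.38 * (a ^ 2 + b ^ 2)) ≤ δ * (b ^ 2 + (φ * b - a) ^ 2 +
        (φ * b - φ * a) ^ 2 + (b - φ * a) ^ 2 + (-a) ^ 2) := by
      rw [hsum]
      exact mul_le_mul_of_nonneg_left hlow hδ.le
    have h5 : 0 ≤ δ * (a ^ 2 + b ^ 2) := by positivity
    linarith

end Pool.Agent.H548.SfBLK
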